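import Mathlib

/-!
# The multiplication formula of Gauss
-/

namespace Pool.Agent.W519.GM

open Real Set Finset

theorem conv_one (j n : ℕ) (hn : 0 < n) :
    ConvexOn ℝ (Ioi (0 : ℝ)) (fun s => log (Gamma ((s + j) / n))) := by
  have hn' : (0 : ℝ) < n := by exact_mod_cast hn
  refine ⟨convex_Ioi 0, fun x hx y hy a b ha hb hab => ?_⟩
  have hx' : (0 : ℝ) < x := hx
  have hy' : (0 : ℝ) < y := hy
  have h1 : (x + j) / n ∈ Ioi (0 : ℝ) := by
    change (0 : ℝ) < (x + j) / n
    positivity
  have h2 : (y + j) / n ∈ Ioi (0 : ℝ) := by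
    change (0 : ℝ) < (y + j) / n
    positivity
  have h3 := convexOn_log_Gamma.2 h1 h2 ha hb hab
  simp only [Function.comp_apply, smul_eq_mul] at h3
  simp only [smul_eq_mul]
  have h4 : (a * x + b * y + j) / n = a * ((x + j) / n) + b * ((y + j) / n) := by
    have hb' : b = 1 - a := by linarith
    subst hb'
    field_simp
    ring
  rw [h4]
  exact h3

theorem conv_sum (n : ℕ) (hn : 0 < n) (m : ℕ) :
    ConvexOn ℝ (Ioi (0 : ℝ)) (fun s => ∑ j ∈ range m, log (Gamma ((s + j) / n))) := by
  induction m with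
  | zero => simpa using convexOn_const (0 : ℝ) (convex_Ioi (0 : ℝ))
  | succ m ih =>
    have h1 := ih.add (conv_one m n hn)
    refine h1.congr fun s _ => ?_
    rw [sum_range_succ]
    rfl

/-- the product of the gamma values -/
noncomputable def gp (n : ℕ) (x : ℝ) : ℝ := ∏ j ∈ range n, Gamma ((x + j) / n)

theorem gp_pos {n : ℕ} (hn : 0 < n) {x : ℝ} (hx : 0 < x) : 0 < gp n x := by
  have hn' : (0 : ℝ) < n := by exact_mod_cast hn
  exact prod_pos fun j _ => Gamma_pos_of_pos (by positivity)

theorem gp_add_one {n : ℕ} (hn : 0 < n) {x : ℝ} (hx : 0 < x) :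
    gp n (x + 1) = gp n x * (x / n) := by
  have hn' : (0 : ℝ) < n := by exact_mod_cast hn
  have h1 : gp n (x + 1) * Gamma ((x + 0) / n) =
      (∏ j ∈ range n, Gamma ((x + j) / n)) * Gamma ((x + n) / n) := by
    rw [← prod_range_succ (fun j : ℕ => Gamma ((x + j) / n)) n, prod_range_succ']
    congr 1
    · unfold gp
      refine prod_congr rfl fun j _ => ?_
      congr 2
      push_cast
      ring
    · push_cast
      rfl
  have h2 : Gamma ((x + n) / n) = x / n * Gamma (x / n) := by
    rw [add_div, div_self hn'.ne', Gamma_add_one (div_ne_zero hx.ne' hn'.ne')]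
  have h3 : Gamma (x / n) ≠ 0 := (Gamma_pos_of_pos (by positivity)).ne'
  rw [add_zero, h2] at h1
  have h4 : gp n (x + 1) * Gamma (x / n) = gp n x * (x / n) * Gamma (x / n) := by
    rw [h1]
    unfold gp
    ring
  exact mul_right_cancel₀ h3 h4

/-- **The multiplication formula of Gauss**, for positive real numbers. -/
theorem gauss {n : ℕ} (hn : 0 < n) {x : ℝ} (hx : 0 < x) :
    gp n x = (n : ℝ) ^ (1 - x) * gp n 1 * Gamma x := by
  have hn' : (0 : ℝ) < n := by exact_mod_cast hn
  have h1p := gp_pos hn one_pos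
  let f : ℝ → ℝ := fun s => gp n s * (n : ℝ) ^ (s - 1) / gp n 1
  have hpos : ∀ {y : ℝ}, 0 < y → 0 < f y := fun {y} hy => by
    have := gp_pos hn hy
    have := rpow_pos_of_pos hn' (y - 1)
    simp only [f]
    positivity
  have hfeq : ∀ {y : ℝ}, 0 < y → f (y + 1) = y * f y := fun {y} hy => by
    simp only [f]
    rw [gp_add_one hn hy]
    have h2 : (n : ℝ) ^ (y + 1 - 1) = n ^ (y - 1) * n := by
      rw [show y + 1 - 1 = (y - 1) + 1 by ring, rpow_add hn', rpow_one]
    rw [h2]
    field_simp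
  have hone : f 1 = 1 := by
    simp only [f]
    rw [sub_self, rpow_zero, mul_one, div_self h1p.ne']
  have hconv : ConvexOn ℝ (Ioi (0 : ℝ)) (log ∘ f) := by
    have hlin : ConvexOn ℝ (Ioi (0 : ℝ)) (fun s : ℝ => (s - 1) * log n) := by
      refine ⟨convex_Ioi 0, fun x _ y _ a b _ _ hab => le_of_eq ?_⟩
      simp only [smul_eq_mul]
      have hb' : b = 1 - a := by linarith
      subst hb'
      ring
    refine (((conv_sum n hn n).add hlin).add_const (-log (gp n 1))).congr fun s hs => ?_
    have hs' : (0 : ℝ) < s := hs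
    have h2 := gp_pos hn hs'
    have h3 := rpow_pos_of_pos hn' (s - 1)
    simp only [f, Function.comp_apply, Pi.add_apply]
    rw [log_div (mul_pos h2 h3).ne' h1p.ne', log_mul h2.ne' h3.ne', log_rpow hn']
    have h4 : log (gp n s) = ∑ j ∈ range n, log (Gamma ((s + j) / n)) := by
      unfold gp
      rw [log_prod]
      intro j _
      exact (Gamma_pos_of_pos (by positivity)).ne'
    rw [h4]
    ring
  have h5 := Real.eq_Gamma_of_log_convex hconv hfeq hpos hone hx
  rw [← h5]
  simp only [f]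
  have h6 : (n : ℝ) ^ (1 - x) * (n : ℝ) ^ (x - 1) = 1 := by
    rw [← rpow_add hn']
    simp
  field_simp
  rw [mul_assoc, h6, mul_one]

end Pool.Agent.W519.GM
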