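import Mathlib

/-!
# Bounds for the transcendence degree
-/

namespace Pool.Agent.W519.GM

open MvPolynomial

set_option synthInstance.maxHeartbeats 400000 in
set_option maxHeartbeats 1000000 in
open scoped IntermediateField.algebraAdjoinAdjoin in
theorem trdeg_adjoin_le (S : Finset ℝ) :
    Algebra.trdeg ℚ (IntermediateField.adjoin ℚ (S : Set ℝ)) ≤ (S.card : Cardinal) := by
  have h1 : Algebra.trdeg ℚ (IntermediateField.adjoin ℚ (S : Set ℝ)) =
      Algebra.trdeg ℚ (Algebra.adjoin ℚ (S : Set ℝ)) := by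
    have h0 : Algebra.trdeg (Algebra.adjoin ℚ (S : Set ℝ))
        (IntermediateField.adjoin ℚ (S : Set ℝ)) = 0 :=
      trdeg_eq_zero_iff.2 inferInstance
    rw [← trdeg_add_eq ℚ (Algebra.adjoin ℚ (S : Set ℝ))
      (A := IntermediateField.adjoin ℚ (S : Set ℝ)), h0, add_zero]
  rw [h1]
  let f : MvPolynomial (S : Set ℝ) ℚ →ₐ[ℚ] (Algebra.adjoin ℚ (S : Set ℝ)) :=
    aeval (fun s => ⟨s.1, Algebra.subset_adjoin s.2⟩)
  have hf : Function.Surjective f := by
    rintro ⟨y, hy⟩
    rw [Algebra.adjoin_eq_range] at hy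
    obtain ⟨P, hP⟩ := hy
    refine ⟨P, Subtype.ext ?_⟩
    change ((Algebra.adjoin ℚ (S : Set ℝ)).val (f P)) = y
    rw [← hP]
    have : (Algebra.adjoin ℚ (S : Set ℝ)).val.comp f =
        aeval (R := ℚ) (fun s : (S : Set ℝ) => (s : ℝ)) := by
      apply MvPolynomial.algHom_ext
      intro i
      simp [f]
    exact DFunLike.congr_fun this P
  have h2 := trdeg_le_of_surjective f hf
  refine h2.trans ?_
  rw [MvPolynomial.trdeg_of_isDomain]
  simp

/-- If all elements of `S` are algebraic over the field generated by the finite set `T`. -/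
theorem trdeg_le_of_algebraic (S : Set ℝ) (T : Finset ℝ)
    (h : ∀ x ∈ S, IsAlgebraic (IntermediateField.adjoin ℚ (T : Set ℝ)) x) :
    Algebra.trdeg ℚ (IntermediateField.adjoin ℚ S) ≤ (T.card : Cardinal) := by
  let L := algebraicClosure (IntermediateField.adjoin ℚ (T : Set ℝ)) ℝ
  have hS : IntermediateField.adjoin ℚ S ≤ L.restrictScalars ℚ := by
    rw [IntermediateField.adjoin_le_iff]
    intro x hx
    exact mem_algebraicClosure_iff.2 (h x hx)
  have hmem : ∀ x : IntermediateField.adjoin ℚ S, (x : ℝ) ∈ L := fun x => hS x.2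
  let f : IntermediateField.adjoin ℚ S →ₐ[ℚ] L :=
    { toFun := fun x => ⟨x, hmem x⟩
      map_one' := rfl
      map_mul' := fun _ _ => rfl
      map_zero' := rfl
      map_add' := fun _ _ => rfl
      commutes' := fun _ => rfl }
  have hf : Function.Injective f := fun x y hxy => Subtype.ext (congrArg (fun z : L => (z : ℝ)) hxy)
  have h1 := trdeg_le_of_injective f hf
  have h2 : Algebra.trdeg (IntermediateField.adjoin ℚ (T : Set ℝ)) L = 0 :=
    trdeg_eq_zero_iff.2 inferInstance
  have h3 := trdeg_add_eq ℚ (IntermediateField.adjoin ℚ (T : Set ℝ)) (A := L)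
  rw [h2, add_zero] at h3
  rw [← h3] at h1
  exact h1.trans (trdeg_adjoin_le T)

end Pool.Agent.W519.GM
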