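import Mathlib
import Pool.Agent.W519.GM.Gauss
import Pool.Agent.W519.GM.Trd

/-!
# Relations between the gamma values with exact denominator `q`
-/

namespace Pool.Agent.W519.GM

open Real Finset

/-- a subfield of `ℝ` which is algebraically closed in `ℝ` and contains `π` -/
structure Good (C : Subfield ℝ) : Prop where
  alg : ∀ x : ℝ, IsAlgebraic ℚ x → x ∈ C
  pi : π ∈ C
  pow : ∀ (x : ℝ) (n : ℕ), 0 < n → x ^ n ∈ C → x ∈ C

variable {C : Subfield ℝ}

theorem sin_mem (hC : Good C) (r : ℚ) : sin (r * π) ∈ C :=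
  hC.alg _ ((isAlgebraic_sin_rat_mul_pi r).extendScalars (RingHom.injective_int (algebraMap ℤ ℚ)))

theorem natCast_mem' (C : Subfield ℝ) (n : ℕ) : (n : ℝ) ∈ C := natCast_mem C n

/-- `n ^ (1 - b/N)` -/
theorem rpow_mem' (hC : Good C) (n b N : ℕ) (hN : 0 < N) :
    (n : ℝ) ^ (1 - (b : ℝ) / N) ∈ C := by
  refine hC.pow _ N hN ?_
  have hN' : (N : ℝ) ≠ 0 := by exact_mod_cast hN.ne'
  rcases Nat.eq_zero_or_pos n with rfl | hn
  · by_cases h : (1 - (b : ℝ) / N) = 0
    · rw [h, rpow_zero, one_pow]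
      exact C.one_mem
    · rw [Nat.cast_zero, zero_rpow h, zero_pow hN.ne']
      exact C.zero_mem
  · have hn' : (0 : ℝ) < n := by exact_mod_cast hn
    rw [← rpow_natCast, ← rpow_mul hn'.le]
    have h1 : (1 - (b : ℝ) / N) * N = ((N : ℤ) - (b : ℤ) : ℤ) := by
      push_cast
      field_simp
    rw [h1, rpow_intCast]
    exact zpow_mem (natCast_mem' C n) _

/-- the reflection formula -/
theorem gamma_refl (hC : Good C) {a q : ℕ} (ha : 0 < a) (haq : a < q)
    (h : Gamma ((a : ℝ) / q) ∈ C) : Gamma (((q - a : ℕ) : ℝ) / q) ∈ C := by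
  have hq : (0 : ℝ) < q := by exact_mod_cast (ha.trans haq)
  have ha' : (0 : ℝ) < a := by exact_mod_cast ha
  have h1 := Gamma_mul_Gamma_one_sub ((a : ℝ) / q)
  have h2 : 1 - (a : ℝ) / q = ((q - a : ℕ) : ℝ) / q := by
    rw [Nat.cast_sub haq.le]
    field_simp
  rw [h2] at h1
  have h3 : Gamma ((a : ℝ) / q) ≠ 0 := (Gamma_pos_of_pos (by positivity)).ne'
  have h4 : Gamma (((q - a : ℕ) : ℝ) / q) = π / sin (π * (a / q)) / Gamma ((a : ℝ) / q) := by
    rw [← h1]
    field_simp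
  rw [h4]
  have h5 : sin (π * (a / q)) ∈ C := by
    have := sin_mem hC ((a : ℚ) / q)
    rw [mul_comm]
    push_cast at this
    exact this
  exact C.div_mem (C.div_mem hC.pi h5) h

/-- the constant of the multiplication formula -/
theorem gp_one_mem (hC : Good C) {n : ℕ} (hn : 0 < n) : gp n 1 ∈ C := by
  obtain ⟨m, rfl⟩ : ∃ m, n = m + 1 := ⟨n - 1, by omega⟩
  have hn' : (0 : ℝ) < ((m + 1 : ℕ) : ℝ) := by exact_mod_cast hn
  have h1 : gp (m + 1) 1 = ∏ j ∈ range m, Gamma ((1 + j) / ((m + 1 : ℕ) : ℝ)) := by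
    unfold gp
    rw [prod_range_succ]
    have : (1 + (m : ℝ)) / ((m + 1 : ℕ) : ℝ) = 1 := by
      push_cast
      rw [add_comm, div_self]
      positivity
    rw [this, Gamma_one, mul_one]
  refine hC.pow _ 2 (by norm_num) ?_
  rw [h1, sq]
  nth_rewrite 2 [← prod_range_reflect]
  rw [← prod_mul_distrib]
  refine Subfield.prod_mem C fun j hj => ?_
  rw [mem_range] at hj
  have h2 : (1 + ((m - 1 - j : ℕ) : ℝ)) / ((m + 1 : ℕ) : ℝ) =
      1 - (1 + (j : ℝ)) / ((m + 1 : ℕ) : ℝ) := by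
    have h3 : m - 1 - j = m - (1 + j) := by omega
    rw [h3, Nat.cast_sub (by omega)]
    push_cast
    field_simp
    ring
  rw [h2, Gamma_mul_Gamma_one_sub]
  refine C.div_mem hC.pi ?_
  have := sin_mem hC ((1 + j : ℚ) / ((m + 1 : ℕ) : ℚ))
  rw [mul_comm]
  push_cast at this ⊢
  exact this

theorem prod_range_mul' (F : ℕ → ℝ) (m n : ℕ) :
    ∏ a ∈ range (m * n), F a = ∏ j ∈ range n, ∏ b ∈ range m, F (m * j + b) := by
  induction n with
  | zero => simp
  | succ n ih => rw [Nat.mul_succ, prod_range_add, ih, prod_range_succ]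

/-- Membership of products: quotients by a fixed positive number. -/
theorem A_mem (hC : Good C) {N : ℕ} (hN : 0 < N) (h : ℕ → Prop) [DecidablePred h]
    (hper : ∀ j b, h (N * j + b) ↔ h b) (h0 : ¬ h 0) {n : ℕ} (hn : 0 < n) :
    (∏ a ∈ range (N * n), if h a then Gamma ((a : ℝ) / ((N * n : ℕ) : ℝ)) else 1) /
      (∏ b ∈ range N, if h b then Gamma ((b : ℝ) / N) else 1) ∈ C := by
  have hN' : (0 : ℝ) < N := by exact_mod_cast hN
  have hn' : (0 : ℝ) < n := by exact_mod_cast hn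
  have hb0 : ∀ b, h b → (0 : ℝ) < b := fun b hb => by
    have : b ≠ 0 := fun h1 => h0 (h1 ▸ hb)
    exact_mod_cast Nat.pos_of_ne_zero this
  rw [prod_range_mul', prod_comm, ← prod_div_distrib]
  refine Subfield.prod_mem C fun b _ => ?_
  by_cases hb : h b
  · have h1 : ∏ j ∈ range n, (if h (N * j + b) then
        Gamma (((N * j + b : ℕ) : ℝ) / ((N * n : ℕ) : ℝ)) else 1) = gp n (b / N) := by
      unfold gp
      refine prod_congr rfl fun j _ => ?_
      rw [if_pos ((hper j b).2 hb)]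
      congr 1
      push_cast
      field_simp
      ring
    have hbN : (0 : ℝ) < b / N := div_pos (hb0 b hb) hN'
    rw [h1, if_pos hb, gauss hn hbN, mul_div_assoc, div_self (Gamma_pos_of_pos hbN).ne', mul_one]
    exact C.mul_mem (rpow_mem' hC n b N hN) (gp_one_mem hC hn)
  · have h1 : ∏ j ∈ range n, (if h (N * j + b) then
        Gamma (((N * j + b : ℕ) : ℝ) / ((N * n : ℕ) : ℝ)) else 1) = 1 := by
      refine prod_eq_one fun j _ => ?_
      rw [if_neg fun h2 => hb ((hper j b).1 h2)]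
    rw [h1, if_neg hb, div_one]
    exact C.one_mem

/-- the product over the residues prime to `ℓ` -/
theorem P_mem (hC : Good C) {N : ℕ} (hN : 0 < N) (h : ℕ → Prop) [DecidablePred h]
    (hper : ∀ j b, h (N * j + b) ↔ h b) (h0 : ¬ h 0) {l : ℕ} (hl : 0 < l)
    (hmul : ∀ a, h (l * a) ↔ h a) {n : ℕ} (hn : 0 < n) :
    (∏ a ∈ range (N * (l * n)),
      if h a ∧ ¬ l ∣ a then Gamma ((a : ℝ) / ((N * (l * n) : ℕ) : ℝ)) else 1) ∈ C := by
  have hN' : (0 : ℝ) < N := by exact_mod_cast hN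
  have hn' : (0 : ℝ) < n := by exact_mod_cast hn
  have hl' : (0 : ℝ) < l := by exact_mod_cast hl
  have hb0 : ∀ b, h b → (0 : ℝ) < b := fun b hb => by
    have : b ≠ 0 := fun h1 => h0 (h1 ▸ hb)
    exact_mod_cast Nat.pos_of_ne_zero this
  have h1 := A_mem hC hN h hper h0 (n := l * n) (by positivity)
  have h2 := A_mem hC hN h hper h0 (n := n) hn
  -- the product over the multiples of `l`
  have h3 : (∏ a ∈ range (N * (l * n)),
      if h a ∧ l ∣ a then Gamma ((a : ℝ) / ((N * (l * n) : ℕ) : ℝ)) else 1) =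
      ∏ a ∈ range (N * n), if h a then Gamma ((a : ℝ) / ((N * n : ℕ) : ℝ)) else 1 := by
    rw [show N * (l * n) = l * (N * n) by ring, prod_range_mul']
    refine prod_congr rfl fun j _ => ?_
    rw [prod_eq_single 0]
    · rw [add_zero]
      by_cases hj : h j
      · rw [if_pos ⟨(hmul j).2 hj, dvd_mul_right _ _⟩, if_pos hj]
        congr 1
        push_cast
        field_simp
      · rw [if_neg fun h4 => hj ((hmul j).1 h4.1), if_neg hj]
    · intro b hb hb0
      rw [if_neg]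
      rintro ⟨-, h4⟩
      rw [mem_range] at hb
      have h5 := (Nat.dvd_add_right (dvd_mul_right l j)).1 h4
      exact absurd (Nat.le_of_dvd (Nat.pos_of_ne_zero hb0) h5) (by omega)
    · intro h4
      exact absurd (mem_range.2 hl) h4
  have h4 : (∏ a ∈ range (N * (l * n)),
      if h a then Gamma ((a : ℝ) / ((N * (l * n) : ℕ) : ℝ)) else 1) =
      (∏ a ∈ range (N * (l * n)),
        if h a ∧ ¬ l ∣ a then Gamma ((a : ℝ) / ((N * (l * n) : ℕ) : ℝ)) else 1) *
      ∏ a ∈ range (N * (l * n)),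
        if h a ∧ l ∣ a then Gamma ((a : ℝ) / ((N * (l * n) : ℕ) : ℝ)) else 1 := by
    rw [← prod_mul_distrib]
    refine prod_congr rfl fun a _ => ?_
    by_cases h5 : h a <;> by_cases h6 : l ∣ a <;> simp [h5, h6]
  rw [h4, h3] at h1
  have pos : ∀ (M : ℕ), 0 < M →
      (∏ b ∈ range M, if h b then Gamma ((b : ℝ) / M) else 1) ≠ 0 := by
    intro M hM
    refine prod_ne_zero_iff.2 fun b _ => ?_
    by_cases hb : h b
    · rw [if_pos hb]
      have hM' : (0 : ℝ) < M := by exact_mod_cast hM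
      exact (Gamma_pos_of_pos (div_pos (hb0 b hb) hM')).ne'
    · rw [if_neg hb]
      exact one_ne_zero
  have h5 := pos N hN
  have h6 := pos (N * n) (by positivity)
  have h7 := C.div_mem h1 h2
  have h8 : ∀ x y z : ℝ, y ≠ 0 → z ≠ 0 → x * y / z / (y / z) = x := by
    intro x y z hy hz
    field_simp
  rw [h8 _ _ _ h6 h5] at h7
  exact h7

end Pool.Agent.W519.GM
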