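import Mathlib

/-!
# Relations between four cotangents / four sawtooth functions modulo a prime
-/

namespace Pool.Agent.W519.GM

open Real

theorem cot_sub {x y : ℝ} (hx : sin x ≠ 0) (hy : sin y ≠ 0) :
    cos x / sin x - cos y / sin y = sin (y - x) / (sin x * sin y) := by
  rw [sin_sub]
  field_simp

theorem cot_anti {x y : ℝ} (hx : 0 < x) (hxy : x < y) (hy : y < π) :
    cos y / sin y < cos x / sin x := by
  have h1 : 0 < sin x := sin_pos_of_pos_of_lt_pi hx (hxy.trans hy)
  have h2 : 0 < sin y := sin_pos_of_pos_of_lt_pi (hx.trans hxy) hy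
  have h3 : 0 < sin (y - x) := sin_pos_of_pos_of_lt_pi (by linarith) (by linarith)
  have h4 := cot_sub h1.ne' h2.ne'
  have h5 : 0 < sin (y - x) / (sin x * sin y) := by positivity
  linarith

theorem cot_anti' {x y : ℝ} (hx : 0 < x) (hxy : x ≤ y) (hy : y < π) :
    cos y / sin y ≤ cos x / sin x := by
  rcases hxy.eq_or_lt with rfl | h
  · exact le_rfl
  · exact (cot_anti hx h hy).le

theorem three_cot {y : ℝ} (hy : 0 < y) (hy3 : 3 * y < π) :
    3 * (cos (3 * y) / sin (3 * y)) < cos y / sin y := by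
  have h1 : 0 < sin y := sin_pos_of_pos_of_lt_pi hy (by linarith)
  have h3 : 0 < sin (3 * y) := sin_pos_of_pos_of_lt_pi (by linarith) hy3
  have h2 : 0 < cos y := cos_pos_of_mem_Ioo ⟨by linarith, by linarith⟩
  rw [← mul_div_assoc, div_lt_div_iff₀ h3 h1]
  have h4 : cos y * sin (3 * y) - 3 * cos (3 * y) * sin y = 8 * sin y ^ 3 * cos y := by
    rw [sin_three_mul, cos_three_mul]
    have h5 := sin_sq_add_cos_sq y
    have h6 : cos y ^ 2 = 1 - sin y ^ 2 := by linarith
    have h7 : cos y ^ 3 = cos y * (1 - sin y ^ 2) := by rw [← h6]; ring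
    rw [h7]
    ring
  have h8 : 0 < 8 * sin y ^ 3 * cos y := by positivity
  linarith

/-- the sum `∑ n z ^ n` for a root of unity -/
theorem sum_mul_pow {z : ℂ} {N : ℕ} (hN : z ^ N = 1) (hz : z ≠ 1) :
    ∑ n ∈ Finset.range N, (n : ℂ) * z ^ n = N / (z - 1) := by
  have h0 : z - 1 ≠ 0 := sub_ne_zero.2 hz
  have h1 : ∀ M : ℕ, (z - 1) * ∑ n ∈ Finset.range M, (n : ℂ) * z ^ n =
      M * z ^ M - z * ∑ n ∈ Finset.range M, z ^ n := by
    intro M
    induction M with
    | zero => simp
    | succ M ih =>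
      rw [Finset.sum_range_succ, mul_add, ih, Finset.sum_range_succ]
      push_cast
      ring
  have h2 : ∑ n ∈ Finset.range N, z ^ n = 0 := by
    have h3 := mul_geom_sum z N
    rw [hN, sub_self] at h3
    exact (mul_eq_zero.1 h3).resolve_left h0
  rw [eq_div_iff h0, mul_comm, h1, h2, hN]
  ring

theorem inv_exp_sub_one {θ : ℝ} (h : sin θ ≠ 0) :
    (1 : ℂ) / (Complex.exp (2 * θ * Complex.I) - 1) =
      -(1 / 2) - ((cos θ / sin θ : ℝ) : ℂ) / 2 * Complex.I := by
  have h1 : Complex.exp (2 * θ * Complex.I) = (Complex.cos θ + Complex.sin θ * Complex.I) ^ 2 := by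
    rw [← Complex.exp_mul_I, ← Complex.exp_nat_mul]
    congr 1
    push_cast
    ring
  have hs : (Complex.sin θ) ≠ 0 := by
    rw [← Complex.ofReal_sin]
    exact_mod_cast h
  have hI : Complex.I ^ 2 = -1 := Complex.I_sq
  have hc : Complex.cos θ ^ 2 = 1 - Complex.sin θ ^ 2 := by
    have := Complex.sin_sq_add_cos_sq (θ : ℂ)
    linear_combination this
  have h2 : (Complex.cos θ + Complex.sin θ * Complex.I) ^ 2 - 1 =
      2 * Complex.I * Complex.sin θ * (Complex.cos θ + Complex.sin θ * Complex.I) := by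
    linear_combination hc - Complex.sin θ ^ 2 * hI
  have h3 : (Complex.cos θ + Complex.sin θ * Complex.I) *
      (Complex.cos θ - Complex.sin θ * Complex.I) = 1 := by
    linear_combination hc - Complex.sin θ ^ 2 * hI
  have h4 : (Complex.cos θ + Complex.sin θ * Complex.I) ≠ 0 := left_ne_zero_of_mul_eq_one h3
  rw [h1, h2]
  push_cast
  rw [div_eq_iff (by simp [hs, h4])]
  set X := Complex.cos θ + Complex.sin θ * Complex.I with hX
  have h5 : Complex.cos θ / Complex.sin θ / 2 * Complex.I * (2 * Complex.I * Complex.sin θ * X) =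
      Complex.I ^ 2 * Complex.cos θ * X := by
    field_simp
  have h6 : (-(1 / 2) - Complex.cos θ / Complex.sin θ / 2 * Complex.I) *
      (2 * Complex.I * Complex.sin θ * X) = -(Complex.I * Complex.sin θ * X) -
      Complex.I ^ 2 * Complex.cos θ * X := by
    rw [sub_mul, h5]
    ring
  rw [h6, hX]
  linear_combination (Complex.cos θ ^ 2 + Complex.sin θ * Complex.cos θ * Complex.I +
    Complex.sin θ ^ 2) * hI - hc

end Pool.Agent.W519.GM
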