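import Mathlib
import Pool.Agent.W519.GM.Cot

/-!
# Relations between four cotangents / four sawtooth functions modulo a prime
-/

namespace Pool.Agent.W519.GM

open Real

variable {p : ℕ} [Fact p.Prime]

/-- the cotangent of `π s / p` -/
noncomputable def ka (s : ZMod p) : ℝ := cos (π * s.val / p) / sin (π * s.val / p)

theorem ang_pos {s : ZMod p} (hs : s ≠ 0) : 0 < π * s.val / p := by
  have h1 : 0 < s.val := ZMod.val_pos.2 hs
  have h2 : 0 < p := (Fact.out : p.Prime).pos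
  have h3 : (0 : ℝ) < s.val := by exact_mod_cast h1
  have h4 : (0 : ℝ) < p := by exact_mod_cast h2
  have := pi_pos
  positivity

theorem ang_lt (s : ZMod p) : π * s.val / p < π := by
  have h2 : 0 < p := (Fact.out : p.Prime).pos
  have h4 : (0 : ℝ) < p := by exact_mod_cast h2
  have h1 : (s.val : ℝ) < p := by exact_mod_cast s.val_lt
  rw [div_lt_iff₀ h4]
  exact mul_lt_mul_of_pos_left h1 pi_pos

theorem sin_ang_pos {s : ZMod p} (hs : s ≠ 0) : 0 < sin (π * s.val / p) :=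
  sin_pos_of_pos_of_lt_pi (ang_pos hs) (ang_lt s)

theorem val_neg' {s : ZMod p} (hs : s ≠ 0) : ((-s).val : ℝ) = p - s.val := by
  have : NeZero s := ⟨hs⟩
  rw [ZMod.val_neg_of_ne_zero, Nat.cast_sub s.val_lt.le]

theorem ka_neg {s : ZMod p} (hs : s ≠ 0) : ka (-s) = - ka s := by
  unfold ka
  have h4 : (p : ℝ) ≠ 0 := by exact_mod_cast (Fact.out : p.Prime).pos.ne'
  rw [val_neg' hs]
  have h5 : π * ((p : ℝ) - s.val) / p = π - π * s.val / p := by
    field_simp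
  rw [h5, cos_pi_sub, sin_pi_sub, neg_div]

/-- `1 / (e(s) - 1)` -/
theorem one_div_e {s : ZMod p} (hs : s ≠ 0) :
    (1 : ℂ) / (ZMod.stdAddChar s - 1) = -(1 / 2) - (ka s : ℂ) / 2 * Complex.I := by
  have h1 := inv_exp_sub_one (sin_ang_pos hs).ne'
  have h2 : (ZMod.stdAddChar s : ℂ) = Complex.exp (2 * ((π * s.val / p : ℝ) : ℂ) * Complex.I) := by
    have h3 := ZMod.stdAddChar_coe (N := p) (s.val : ℤ)
    have h4 : (((s.val : ℤ) : ZMod p)) = s := by
      push_cast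
      exact ZMod.natCast_zmod_val s
    rw [h4] at h3
    rw [h3]
    congr 1
    push_cast
    ring
  rw [h2, h1]
  rfl

theorem e_ne_one {t : ZMod p} (ht : t ≠ 0) : (ZMod.stdAddChar t : ℂ) ≠ 1 := by
  intro h
  apply ht
  have h1 := ZMod.injective_stdAddChar (N := p)
  apply h1
  rw [h, AddChar.map_zero_eq_one]

theorem e_mul (t n : ZMod p) :
    (ZMod.stdAddChar (t * n) : ℂ) = (ZMod.stdAddChar t : ℂ) ^ n.val := by
  rw [← AddChar.map_nsmul_eq_pow]
  congr 1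
  rw [nsmul_eq_mul, ZMod.natCast_zmod_val, mul_comm]

theorem sum_val_e {t : ZMod p} (ht : t ≠ 0) :
    ∑ n : ZMod p, (n.val : ℂ) * ZMod.stdAddChar (t * n) = p / (ZMod.stdAddChar t - 1) := by
  have hp0 : p ≠ 0 := (Fact.out : p.Prime).pos.ne'
  have h1 : (ZMod.stdAddChar t : ℂ) ^ p = 1 := by
    rw [← AddChar.map_nsmul_eq_pow, nsmul_eq_mul, CharP.cast_eq_zero, zero_mul,
      AddChar.map_zero_eq_one]
  rw [← sum_mul_pow h1 (e_ne_one ht)]
  have h2 : ∑ n : ZMod p, (n.val : ℂ) * ZMod.stdAddChar (t * n) =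
      ∑ n : ZMod p, (fun k : ℕ => (k : ℂ) * (ZMod.stdAddChar t : ℂ) ^ k) n.val :=
    Finset.sum_congr rfl fun n _ => by rw [e_mul]
  rw [h2]
  obtain ⟨k, rfl⟩ := Nat.exists_eq_succ_of_ne_zero hp0
  exact (Fin.sum_univ_eq_sum_range (fun k : ℕ => (k : ℂ) * (ZMod.stdAddChar t : ℂ) ^ k) (k + 1))

theorem sum_val_mul_e {t a : ZMod p} (ht : t ≠ 0) (ha : a ≠ 0) :
    ∑ m : ZMod p, ((m * a).val : ℂ) * ZMod.stdAddChar (t * m) =
      p / (ZMod.stdAddChar (t * a⁻¹) - 1) := by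
  rw [← sum_val_e (mul_ne_zero ht (inv_ne_zero ha))]
  refine Fintype.sum_equiv (Equiv.mulRight₀ a ha) _ _ fun m => ?_
  change _ = ((m * a).val : ℂ) * ZMod.stdAddChar (t * a⁻¹ * (m * a))
  have h1 : t * a⁻¹ * (m * a) = t * m := by
    field_simp
  rw [h1]

/-- from sawtooth functions to cotangents -/
theorem ka_rel {a b c d : ZMod p} (ha : a ≠ 0) (hb : b ≠ 0) (hc : c ≠ 0) (hd : d ≠ 0)
    (h : ∀ m : ZMod p, (m * a).val + (m * b).val = (m * c).val + (m * d).val)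
    {t : ZMod p} (ht : t ≠ 0) :
    ka (t * a⁻¹) + ka (t * b⁻¹) = ka (t * c⁻¹) + ka (t * d⁻¹) := by
  have hp0 : (p : ℂ) ≠ 0 := by exact_mod_cast (Fact.out : p.Prime).pos.ne'
  have h1 : ∑ m : ZMod p, ((m * a).val : ℂ) * ZMod.stdAddChar (t * m) +
      ∑ m : ZMod p, ((m * b).val : ℂ) * ZMod.stdAddChar (t * m) =
      ∑ m : ZMod p, ((m * c).val : ℂ) * ZMod.stdAddChar (t * m) +
      ∑ m : ZMod p, ((m * d).val : ℂ) * ZMod.stdAddChar (t * m) := by
    rw [← Finset.sum_add_distrib, ← Finset.sum_add_distrib]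
    refine Finset.sum_congr rfl fun m _ => ?_
    rw [← add_mul, ← add_mul]
    congr 1
    exact_mod_cast h m
  rw [sum_val_mul_e ht ha, sum_val_mul_e ht hb, sum_val_mul_e ht hc, sum_val_mul_e ht hd] at h1
  have key : ∀ x : ZMod p, x ≠ 0 → (p : ℂ) / (ZMod.stdAddChar (t * x⁻¹) - 1) =
      p * (-(1 / 2) - (ka (t * x⁻¹) : ℂ) / 2 * Complex.I) := by
    intro x hx
    rw [← one_div_e (mul_ne_zero ht (inv_ne_zero hx))]
    ring
  rw [key a ha, key b hb, key c hc, key d hd] at h1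
  have h2 : (p : ℂ) * (((ka (t * a⁻¹) + ka (t * b⁻¹) - (ka (t * c⁻¹) + ka (t * d⁻¹)) : ℝ) : ℂ)) =
      0 := by
    have hI : Complex.I * Complex.I = -1 := Complex.I_mul_I
    push_cast
    linear_combination (2 * Complex.I) * h1 - (ka (t * a⁻¹) + ka (t * b⁻¹) -
      (ka (t * c⁻¹) + ka (t * d⁻¹)) : ℂ) * p * hI * (-1)
  have h3 := (mul_eq_zero.1 h2).resolve_left hp0
  have h4 : ka (t * a⁻¹) + ka (t * b⁻¹) - (ka (t * c⁻¹) + ka (t * d⁻¹)) = 0 := by exact_mod_cast h3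
  linarith

end Pool.Agent.W519.GM
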