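import Mathlib
import Pool.Agent.W519.GM.Rel

/-!
# Four-term relations
-/

namespace Pool.Agent.W519.GM

open Real

variable {p : ℕ} [Fact p.Prime]

theorem val_two' (hp : 7 ≤ p) : (2 : ZMod p).val = 2 := by
  have : (2 : ZMod p) = ((2 : ℕ) : ZMod p) := by norm_num
  rw [this, ZMod.val_natCast_of_lt (by omega)]

theorem ka_le {s : ZMod p} {k : ℕ} (hk : 0 < k) (h : k ≤ s.val) :
    ka s ≤ cos (π * k / p) / sin (π * k / p) := by
  have hp0 : (0 : ℝ) < p := by exact_mod_cast (Fact.out : p.Prime).pos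
  have hk' : (0 : ℝ) < k := by exact_mod_cast hk
  refine cot_anti' (by have := pi_pos; positivity) ?_ (ang_lt s)
  have : (k : ℝ) ≤ s.val := by exact_mod_cast h
  have := pi_pos
  gcongr

theorem ka_one (hp : 7 ≤ p) : ka (1 : ZMod p) = cos (π * (1 : ℕ) / p) / sin (π * (1 : ℕ) / p) := by
  unfold ka
  have : Fact (1 < p) := ⟨by omega⟩
  rw [ZMod.val_one]

theorem val_ge_two {s : ZMod p} (hs : s ≠ 0) (h1 : s ≠ 1) : 2 ≤ s.val := by
  have h2 : s.val ≠ 0 := fun h => hs ((ZMod.val_eq_zero s).1 h)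
  have h3 : s.val ≠ 1 := by
    intro h
    apply h1
    have h4 := ZMod.natCast_zmod_val s
    rw [h] at h4
    rw [← h4]
    norm_num
  omega

theorem val_ge_three {s : ZMod p} (hs : s ≠ 0) (h1 : s ≠ 1) (h2 : s ≠ 2) :
    3 ≤ s.val := by
  have h3 := val_ge_two hs h1
  have h4 : s.val ≠ 2 := by
    intro h
    apply h2
    have h4 := ZMod.natCast_zmod_val s
    rw [h] at h4
    rw [← h4]
    norm_num
  omega

theorem eq_one_of_ka {s : ZMod p} (hp : 7 ≤ p) (hs : s ≠ 0) (h : ka s = ka (1 : ZMod p)) :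
    s = 1 := by
  by_contra h1
  have h2 := ka_le (by norm_num) (val_ge_two hs h1)
  have h3 : cos (π * (2 : ℕ) / p) / sin (π * (2 : ℕ) / p) <
      cos (π * (1 : ℕ) / p) / sin (π * (1 : ℕ) / p) := by
    have hp0 : (0 : ℝ) < p := by exact_mod_cast (Fact.out : p.Prime).pos
    have hp7 : (7 : ℝ) ≤ p := by exact_mod_cast hp
    have := pi_pos
    refine cot_anti (by positivity) ?_ ?_
    · push_cast
      gcongr
      norm_num
    · push_cast
      rw [div_lt_iff₀ hp0]
      nlinarith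
  rw [← ka_one hp] at h3
  linarith

/-- three values away from `1` and `2` are too small -/
theorem three_small {y : Fin 3 → ZMod p} (hp : 7 ≤ p) (h0 : ∀ i, y i ≠ 0) (h1 : ∀ i, y i ≠ 1)
    (hs : ka (1 : ZMod p) = ∑ i, ka (y i)) : ∃ i, y i = 2 := by
  by_contra h2
  push Not at h2
  have h3 : ∀ i, ka (y i) ≤ cos (π * (3 : ℕ) / p) / sin (π * (3 : ℕ) / p) := fun i =>
    ka_le (by norm_num) (val_ge_three (h0 i) (h1 i) (h2 i))
  have hp0 : (0 : ℝ) < p := by exact_mod_cast (Fact.out : p.Prime).pos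
  have hp7 : (7 : ℝ) ≤ p := by exact_mod_cast hp
  have hpi := pi_pos
  have h4 := three_cot (y := π / p) (by positivity) (by
    rw [← mul_div_assoc, div_lt_iff₀ hp0]
    nlinarith)
  have e1 : π * (3 : ℕ) / p = 3 * (π / p) := by
    push_cast
    ring
  have e2 : π * (1 : ℕ) / p = π / p := by
    push_cast
    ring
  rw [ka_one hp, e2, Fin.sum_univ_three] at hs
  rw [e1] at h3
  have a := h3 0
  have b := h3 1
  have c := h3 2
  linarith

/-- **Four cotangents.** -/
theorem four {x : Fin 4 → ZMod p} (hp : 7 ≤ p) (h0 : ∀ i, x i ≠ 0)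
    (h : ∀ t : ZMod p, t ≠ 0 → ∑ i, ka (t * x i) = 0) : ∃ i j, i ≠ j ∧ x i = - x j := by
  by_contra hcon
  push Not at hcon
  have key : ∀ i, ∃ j, x j = -2 * x i := by
    intro i
    have h1 := h (x i)⁻¹ (inv_ne_zero (h0 i))
    rw [Fin.sum_univ_succAbove _ i, inv_mul_cancel₀ (h0 i)] at h1
    obtain ⟨j, hj⟩ := three_small (y := fun j => -((x i)⁻¹ * x (i.succAbove j))) hp
      (fun j => neg_ne_zero.2 (mul_ne_zero (inv_ne_zero (h0 i)) (h0 _)))
      (fun j hj => by
        refine hcon i (i.succAbove j) (Fin.succAbove_ne i j).symm ?_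
        have h2 : x i * (-((x i)⁻¹ * x (i.succAbove j))) = x i * 1 := by rw [hj]
        rw [mul_neg, ← mul_assoc, mul_inv_cancel₀ (h0 i), one_mul, mul_one] at h2
        exact h2.symm)
      (by
        rw [Finset.sum_congr rfl fun j _ => ka_neg (mul_ne_zero (inv_ne_zero (h0 i)) (h0 _))]
        rw [Finset.sum_neg_distrib]
        linarith)
    refine ⟨i.succAbove j, ?_⟩
    have h2 : x i * (-((x i)⁻¹ * x (i.succAbove j))) = x i * 2 := by rw [hj]
    rw [mul_neg, ← mul_assoc, mul_inv_cancel₀ (h0 i), one_mul] at h2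
    linear_combination -h2
  choose f hf using key
  have hit : ∀ n : ℕ, x (f^[n] 0) = (-2) ^ n * x 0 := by
    intro n
    induction n with
    | zero => simp
    | succ n ih => rw [Function.iterate_succ_apply', hf, ih, pow_succ]; ring
  -- pigeonhole
  obtain ⟨u, v, huv, hfe⟩ : ∃ u v : Fin 5, u < v ∧ f^[(u : ℕ)] 0 = f^[(v : ℕ)] 0 := by
    obtain ⟨u, v, huv, h5⟩ := Fintype.exists_ne_map_eq_of_card_lt
      (fun n : Fin 5 => f^[(n : ℕ)] 0) (by simp)
    rcases lt_or_gt_of_ne huv with h6 | h6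
    · exact ⟨u, v, h6, h5⟩
    · exact ⟨v, u, h6, h5.symm⟩
  have h6 : ((-2 : ZMod p)) ^ (u : ℕ) * x 0 = (-2) ^ (v : ℕ) * x 0 := by
    rw [← hit, ← hit, hfe]
  have h7 := mul_right_cancel₀ (h0 0) h6
  have h2ne : (-2 : ZMod p) ≠ 0 := by
    rw [neg_ne_zero]
    intro h8
    have h9 := val_two' hp
    rw [h8, ZMod.val_zero] at h9
    omega
  have h8 : ((-2 : ZMod p)) ^ ((v : ℕ) - (u : ℕ)) = 1 := by
    have h9 : (v : ℕ) = u + (v - u) := by
      have : (u : ℕ) < v := huv
      omega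
    rw [h9, pow_add] at h7
    exact (mul_left_cancel₀ (pow_ne_zero _ h2ne) (by rw [mul_one]; exact h7)).symm
  have hL : (v : ℕ) - u = 1 ∨ (v : ℕ) - u = 2 ∨ (v : ℕ) - u = 3 ∨ (v : ℕ) - u = 4 := by
    have h9 : (u : ℕ) < v := huv
    have h10 := v.isLt
    omega
  have small : ∀ k : ℕ, 0 < k → ((k : ℕ) : ZMod p) = 0 → ∀ q, q.Prime → q ∣ k → k ∣ q * q →
      p = q := by
    intro k hk h9 q hq hqk hk2
    have h10 : p ∣ k := (ZMod.natCast_eq_zero_iff k p).1 h9
    have h11 : p ∣ q * q := h10.trans hk2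
    have h12 := (Nat.Prime.dvd_mul (Fact.out : p.Prime)).1 h11
    rcases h12 with h12 | h12 <;> exact (Nat.prime_dvd_prime_iff_eq (Fact.out : p.Prime) hq).1 h12
  rcases hL with h9 | h9 | h9 | h9 <;> rw [h9] at h8
  · have h10 : ((3 : ℕ) : ZMod p) = 0 := by
      push_cast
      linear_combination -h8
    have := small 3 (by norm_num) h10 3 Nat.prime_three (by norm_num) (by norm_num)
    omega
  · have h10 : ((3 : ℕ) : ZMod p) = 0 := by
      push_cast
      linear_combination h8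
    have := small 3 (by norm_num) h10 3 Nat.prime_three (by norm_num) (by norm_num)
    omega
  · have h10 : ((9 : ℕ) : ZMod p) = 0 := by
      push_cast
      linear_combination -h8
    have := small 9 (by norm_num) h10 3 Nat.prime_three (by norm_num) (by norm_num)
    omega
  · have h10 : ((15 : ℕ) : ZMod p) = 0 := by
      push_cast
      linear_combination h8
    have h11 : p ∣ 15 := (ZMod.natCast_eq_zero_iff 15 p).1 h10
    have h12 := Nat.le_of_dvd (by norm_num) h11
    have h13 := (Fact.out : p.Prime)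
    interval_cases p <;> first | omega | norm_num at h13

/-- **Pairs with the same sawtooth functions.** -/
theorem pairs {a b c d : ZMod p} (hp : 7 ≤ p) (ha : a ≠ 0) (hb : b ≠ 0) (hc : c ≠ 0) (hd : d ≠ 0)
    (hab : a + b ≠ 0)
    (h : ∀ m : ZMod p, (m * a).val + (m * b).val = (m * c).val + (m * d).val) :
    (a = c ∧ b = d) ∨ (a = d ∧ b = c) := by
  -- the sum
  have hsum : a + b = c + d := by
    have h1 := h 1
    rw [one_mul, one_mul, one_mul, one_mul] at h1
    have h2 := congrArg (fun n : ℕ => (n : ZMod p)) h1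
    simpa [ZMod.natCast_zmod_val] using h2
  have hrel := fun t (ht : t ≠ 0) => ka_rel ha hb hc hd h (t := t) ht
  have h4 := four (x := ![a⁻¹, b⁻¹, -c⁻¹, -d⁻¹]) hp (by
      intro i
      fin_cases i <;> simp [ha, hb, hc, hd]) (by
      intro t ht
      rw [Fin.sum_univ_four]
      simp only [Matrix.cons_val]
      rw [mul_neg, mul_neg, ka_neg (mul_ne_zero ht (inv_ne_zero hc)),
        ka_neg (mul_ne_zero ht (inv_ne_zero hd))]
      have := hrel t ht
      linarith)
  have hinv : ∀ {x y : ZMod p}, x⁻¹ = y⁻¹ → x = y := fun h => inv_injective h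
  have hinvn : ∀ {x y : ZMod p}, x⁻¹ = -y⁻¹ → x = -y := fun {x y} h => by
    rw [← inv_neg] at h
    exact inv_injective h
  have hnc : c + d ≠ 0 := hsum ▸ hab
  obtain ⟨i, j, hij, hx⟩ := h4
  have fin : a = c ∨ a = d ∨ b = c ∨ b = d → (a = c ∧ b = d) ∨ (a = d ∧ b = c) := by
    rintro (h1 | h1 | h1 | h1)
    · exact Or.inl ⟨h1, by linear_combination hsum - h1⟩
    · exact Or.inr ⟨h1, by linear_combination hsum - h1⟩
    · exact Or.inr ⟨by linear_combination hsum - h1, h1⟩
    · exact Or.inl ⟨by linear_combination hsum - h1, h1⟩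
  apply fin
  by_contra hcon
  push Not at hcon
  obtain ⟨n1, n2, n3, n4⟩ := hcon
  have m1 : a⁻¹ ≠ -b⁻¹ := fun h => hab (by rw [hinvn h]; ring)
  have m2 : c⁻¹ ≠ -d⁻¹ := fun h => hnc (by rw [hinvn h]; ring)
  have m3 : a⁻¹ ≠ c⁻¹ := fun h => n1 (hinv h)
  have m4 : a⁻¹ ≠ d⁻¹ := fun h => n2 (hinv h)
  have m5 : b⁻¹ ≠ c⁻¹ := fun h => n3 (hinv h)
  have m6 : b⁻¹ ≠ d⁻¹ := fun h => n4 (hinv h)
  have m1' : b⁻¹ ≠ -a⁻¹ := fun h => m1 (by rw [h, neg_neg])
  have m2' : -c⁻¹ ≠ d⁻¹ := fun h => m2 (by rw [← h, neg_neg])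
  have m2'' : -d⁻¹ ≠ c⁻¹ := fun h => m2 h.symm
  fin_cases i <;> fin_cases j <;>
    first
      | exact hij rfl
      | exact m1 hx
      | exact m1' hx
      | exact m3 (hx.trans (neg_neg _))
      | exact m4 (hx.trans (neg_neg _))
      | exact m5 (hx.trans (neg_neg _))
      | exact m6 (hx.trans (neg_neg _))
      | exact m3 (neg_injective hx).symm
      | exact m4 (neg_injective hx).symm
      | exact m5 (neg_injective hx).symm
      | exact m6 (neg_injective hx).symm
      | exact m2' (hx.trans (neg_neg _))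
      | exact m2'' (hx.trans (neg_neg _))

end Pool.Agent.W519.GM
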