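import Mathlib
import Pool.Agent.W519.GM.Four

/-!
# Counting products of gamma values in a class modulo the algebraic numbers
-/

namespace Pool.Agent.W519.GM

open Real

/-- For all residues `a, b, c, d`, not zero modulo `p`, with `a + b ≡ c + d`: if the functions
`m ↦ {ma/p} + {mb/p}` and `m ↦ {mc/p} + {md/p}` are not equal then the quotient
`Γ(a/p)Γ(b/p) / (Γ(c/p)Γ(d/p))` is transcendental. -/
def BetaRatios (p : ℕ) : Prop :=
  ∀ a b c d : ℕ, 0 < a → a < p → 0 < b → b < p → 0 < c → c < p → 0 < d → d < p →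
    (a + b) % p = (c + d) % p →
    (∃ m : ℕ, Int.fract ((m * a : ℕ) / (p : ℚ)) + Int.fract ((m * b : ℕ) / (p : ℚ)) ≠
      Int.fract ((m * c : ℕ) / (p : ℚ)) + Int.fract ((m * d : ℕ) / (p : ℚ))) →
    Transcendental ℚ (Gamma (a / p) * Gamma (b / p) / (Gamma (c / p) * Gamma (d / p)))

/-- `x` is an algebraic multiple of `z` -/
def AlgMultiple (z x : ℝ) : Prop := ∃ α : ℝ, IsAlgebraic ℚ α ∧ x = α * z

section

variable {p : ℕ} [Fact p.Prime]

/-- `Γ(x/p)` -/
noncomputable def g (x : (ZMod p)ˣ) : ℝ := Gamma (((x : ZMod p).val : ℝ) / p)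

theorem g_pos (x : (ZMod p)ˣ) : 0 < g x := by
  apply Gamma_pos_of_pos
  have h2 : 0 < p := (Fact.out : p.Prime).pos
  have h4 : (0 : ℝ) < p := by exact_mod_cast h2
  have h1 : 0 < (x : ZMod p).val := ZMod.val_pos.2 x.ne_zero
  have h3 : (0 : ℝ) < (x : ZMod p).val := by exact_mod_cast h1
  positivity

theorem fract_val (m a : ZMod p) :
    Int.fract ((m.val * a.val : ℕ) / (p : ℚ)) = ((m * a).val : ℚ) / p := by
  have h2 : 0 < p := (Fact.out : p.Prime).pos
  have h4 : (0 : ℚ) < p := by exact_mod_cast h2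
  rw [Int.fract_eq_iff]
  refine ⟨by positivity, ?_, ?_⟩
  · rw [div_lt_one h4]
    exact_mod_cast (m * a).val_lt
  · refine ⟨((m.val * a.val / p : ℕ) : ℤ), ?_⟩
    rw [ZMod.val_mul]
    have h5 := Nat.div_add_mod (m.val * a.val) p
    generalize m.val * a.val / p = q at h5 ⊢
    generalize m.val * a.val % p = r at h5 ⊢
    rw [← h5]
    push_cast
    field_simp
    ring

/-- two pairs with the same sum in the same class coincide -/
theorem pair_eq (hp : 7 ≤ p) (W : BetaRatios p) {z : ℝ} {x y x' y' : (ZMod p)ˣ}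
    (h : AlgMultiple z (g x * g y)) (h' : AlgMultiple z (g x' * g y'))
    (hs : (x : ZMod p) + y = x' + y') (h0 : (x : ZMod p) + y ≠ 0) :
    (x = x' ∧ y = y') ∨ (x = y' ∧ y = x') := by
  have key : ∀ m : ZMod p, (m * x).val + (m * y).val = (m * x').val + (m * y').val := by
    by_contra hcon
    push Not at hcon
    obtain ⟨m, hm⟩ := hcon
    have h1 : Transcendental ℚ (g x * g y / (g x' * g y')) := by
      refine W (x : ZMod p).val (y : ZMod p).val (x' : ZMod p).val (y' : ZMod p).val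
        (ZMod.val_pos.2 x.ne_zero) (ZMod.val_lt _) (ZMod.val_pos.2 y.ne_zero) (ZMod.val_lt _)
        (ZMod.val_pos.2 x'.ne_zero) (ZMod.val_lt _) (ZMod.val_pos.2 y'.ne_zero) (ZMod.val_lt _)
        ?_ ⟨m.val, ?_⟩
      · rw [← ZMod.val_add, ← ZMod.val_add, hs]
      · rw [fract_val, fract_val, fract_val, fract_val]
        intro h2
        apply hm
        have h4 : (p : ℚ) ≠ 0 := by exact_mod_cast (Fact.out : p.Prime).pos.ne'
        rw [← add_div, ← add_div, div_left_inj' h4] at h2
        exact_mod_cast h2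
    obtain ⟨α, hα, h2⟩ := h
    obtain ⟨β, hβ, h3⟩ := h'
    apply h1
    have hz : z ≠ 0 := by
      rintro rfl
      rw [mul_zero] at h2
      exact (mul_pos (g_pos x) (g_pos y)).ne' h2
    rw [h2, h3, mul_div_mul_right _ _ hz]
    exact hα.mul hβ.inv
  rcases pairs hp x.ne_zero y.ne_zero x'.ne_zero y'.ne_zero h0 key with ⟨h1, h2⟩ | ⟨h1, h2⟩
  · exact Or.inl ⟨Units.ext h1, Units.ext h2⟩
  · exact Or.inr ⟨Units.ext h1, Units.ext h2⟩

open Classical in
/-- the number of pairs with sum not zero -/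
theorem card_pairs (hp : 7 ≤ p) (W : BetaRatios p) (z : ℝ) :
    (Finset.univ.filter fun x : (ZMod p)ˣ × (ZMod p)ˣ =>
      AlgMultiple z (g x.1 * g x.2) ∧ (x.1 : ZMod p) + x.2 ≠ 0).card ≤ 2 * (p - 1) := by
  set T := Finset.univ.filter fun x : (ZMod p)ˣ × (ZMod p)ˣ =>
      AlgMultiple z (g x.1 * g x.2) ∧ (x.1 : ZMod p) + x.2 ≠ 0 with hT
  have h1 : T.card ≤ 2 * (Finset.univ.erase (0 : ZMod p)).card := by
    refine Finset.card_le_mul_card_image_of_maps_to (f := fun x => (x.1 : ZMod p) + x.2)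
      (fun x hx => ?_) 2 (fun s _ => ?_)
    · rw [hT, Finset.mem_filter] at hx
      exact Finset.mem_erase.2 ⟨hx.2.2, Finset.mem_univ _⟩
    · rcases (T.filter fun x => (x.1 : ZMod p) + x.2 = s).eq_empty_or_nonempty with h | ⟨x, hx⟩
      · rw [h]
        simp
      · refine (Finset.card_le_card (t := {x, (x.2, x.1)}) fun y hy => ?_).trans
          Finset.card_le_two
        rw [Finset.mem_filter, hT, Finset.mem_filter] at hx hy
        rw [Finset.mem_insert, Finset.mem_singleton]
        rcases pair_eq hp W hy.1.2.1 hx.1.2.1 (by rw [hy.2, hx.2]) hy.1.2.2 with h | h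
        · exact Or.inl (Prod.ext h.1 h.2)
        · exact Or.inr (Prod.ext h.1 h.2)
  rw [Finset.card_erase_of_mem (Finset.mem_univ _), Finset.card_univ, ZMod.card] at h1
  exact h1

theorem card_units' : Fintype.card (ZMod p)ˣ = p - 1 := ZMod.card_units p

open Classical in
theorem card_pairs_all (hp : 7 ≤ p) (W : BetaRatios p) (z : ℝ) :
    (Finset.univ.filter fun x : (ZMod p)ˣ × (ZMod p)ˣ =>
      AlgMultiple z (g x.1 * g x.2)).card ≤ 3 * (p - 1) := by
  have h1 := card_pairs hp W z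
  have h2 : (Finset.univ.filter fun x : (ZMod p)ˣ × (ZMod p)ˣ =>
      AlgMultiple z (g x.1 * g x.2) ∧ (x.1 : ZMod p) + x.2 = 0).card ≤ p - 1 := by
    rw [← card_units' (p := p), ← Finset.card_univ]
    refine Finset.card_le_card_of_injOn (fun x => x.1) (fun _ _ => Finset.mem_coe.2
      (Finset.mem_univ _)) ?_
    intro x hx y hy hxy
    rw [Finset.mem_coe, Finset.mem_filter] at hx hy
    refine Prod.ext hxy (Units.ext ?_)
    have h3 : (x.1 : ZMod p) = y.1 := congrArg (fun u : (ZMod p)ˣ => (u : ZMod p)) hxy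
    linear_combination hx.2.2 - hy.2.2 - h3
  have h3 : (Finset.univ.filter fun x : (ZMod p)ˣ × (ZMod p)ˣ =>
      AlgMultiple z (g x.1 * g x.2)) ⊆
      (Finset.univ.filter fun x : (ZMod p)ˣ × (ZMod p)ˣ =>
        AlgMultiple z (g x.1 * g x.2) ∧ (x.1 : ZMod p) + x.2 ≠ 0) ∪
      (Finset.univ.filter fun x : (ZMod p)ˣ × (ZMod p)ˣ =>
        AlgMultiple z (g x.1 * g x.2) ∧ (x.1 : ZMod p) + x.2 = 0) := by
    intro x hx
    rw [Finset.mem_filter] at hx
    rw [Finset.mem_union, Finset.mem_filter, Finset.mem_filter]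
    by_cases h : (x.1 : ZMod p) + x.2 = 0
    · exact Or.inr ⟨Finset.mem_univ _, hx.2, h⟩
    · exact Or.inl ⟨Finset.mem_univ _, hx.2, h⟩
  have h4 := (Finset.card_le_card h3).trans (Finset.card_union_le _ _)
  omega

open Classical in
/-- single values -/
theorem card_single (hp : 7 ≤ p) (W : BetaRatios p) (z : ℝ) :
    (Finset.univ.filter fun x : (ZMod p)ˣ => AlgMultiple z (g x)).card *
      ((Finset.univ.filter fun x : (ZMod p)ˣ => AlgMultiple z (g x)).card - 1) ≤ 2 * (p - 1) := by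
  set A := Finset.univ.filter fun x : (ZMod p)ˣ => AlgMultiple z (g x) with hA
  have h1 := card_pairs hp W (z * z)
  refine le_trans ?_ h1
  have h2 : ∀ b ∈ A, (A.card - 1) ≤ (A.filter fun a : (ZMod p)ˣ => (a : ZMod p) + b ≠ 0).card := by
    intro b _
    have h3 : A ⊆ (A.filter fun a : (ZMod p)ˣ => (a : ZMod p) + b ≠ 0) ∪ {-b} := by
      intro a ha
      rw [Finset.mem_union, Finset.mem_filter, Finset.mem_singleton]
      by_cases h : (a : ZMod p) + b = 0
      · refine Or.inr (Units.ext ?_)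
        rw [Units.val_neg]
        linear_combination h
      · exact Or.inl ⟨ha, h⟩
    have h4 := (Finset.card_le_card h3).trans (Finset.card_union_le _ _)
    rw [Finset.card_singleton] at h4
    omega
  calc A.card * (A.card - 1) = ∑ _b ∈ A, (A.card - 1) := by
        rw [Finset.sum_const, smul_eq_mul]
    _ ≤ ∑ b ∈ A, (A.filter fun a : (ZMod p)ˣ => (a : ZMod p) + b ≠ 0).card := Finset.sum_le_sum h2
    _ = ((A ×ˢ A).filter fun x : (ZMod p)ˣ × (ZMod p)ˣ => (x.1 : ZMod p) + x.2 ≠ 0).card := by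
        rw [Finset.card_filter, Finset.sum_product_right]
        refine Finset.sum_congr rfl fun b _ => ?_
        rw [Finset.card_filter]
    _ ≤ _ := by
        refine Finset.card_le_card fun x hx => ?_
        rw [Finset.mem_filter, Finset.mem_product] at hx
        rw [Finset.mem_filter]
        refine ⟨Finset.mem_univ _, ?_, hx.2⟩
        rw [hA, Finset.mem_filter, Finset.mem_filter] at hx
        obtain ⟨⟨⟨-, α, hα, h5⟩, ⟨-, β, hβ, h6⟩⟩, -⟩ := hx
        exact ⟨α * β, hα.mul hβ, by rw [h5, h6]; ring⟩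

open Classical in
/-- tuples -/
theorem card_tuples (hp : 7 ≤ p) (W : BetaRatios p) (z : ℝ) (r : ℕ) :
    (Finset.univ.filter fun x : Fin (r + 2) → (ZMod p)ˣ =>
      AlgMultiple z (∏ i, g (x i))).card ≤ 3 * (p - 1) ^ (r + 1) := by
  set T := Finset.univ.filter fun x : Fin (r + 2) → (ZMod p)ˣ =>
      AlgMultiple z (∏ i, g (x i)) with hT
  have h1 : T.card ≤ (3 * (p - 1)) * (Finset.univ : Finset (Fin r → (ZMod p)ˣ)).card := by
    refine Finset.card_le_mul_card_image_of_maps_to
      (f := fun x (i : Fin r) => x i.succ.succ) (fun x _ => Finset.mem_univ _) _ (fun y _ => ?_)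
    have h2 := card_pairs_all hp W (z / ∏ i, g (y i))
    refine le_trans (Finset.card_le_card_of_injOn (fun x => (x 0, x 1)) (fun x hx => ?_) ?_) h2
    · rw [Finset.mem_coe, Finset.mem_filter, hT, Finset.mem_filter] at hx
      rw [Finset.mem_coe, Finset.mem_filter]
      refine ⟨Finset.mem_univ _, ?_⟩
      obtain ⟨⟨-, α, hα, h3⟩, h4⟩ := hx
      refine ⟨α, hα, ?_⟩
      rw [Fin.prod_univ_succ, Fin.prod_univ_succ] at h3
      have h5 : ∏ i : Fin r, g (x i.succ.succ) = ∏ i, g (y i) :=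
        Finset.prod_congr rfl fun i _ => by rw [← h4]
      have h6 : ∏ i, g (y i) ≠ 0 := Finset.prod_ne_zero_iff.2 fun i _ => (g_pos _).ne'
      rw [h5] at h3
      rw [← mul_div_assoc, eq_div_iff h6, ← h3]
      rw [mul_assoc]
      rfl
    · intro x hx x' hx' h
      rw [Finset.mem_coe, Finset.mem_filter] at hx hx'
      have h3 : x 0 = x' 0 := congrArg Prod.fst h
      have h4 : x 1 = x' 1 := congrArg Prod.snd h
      funext i
      refine Fin.cases h3 (fun i => ?_) i
      refine Fin.cases h4 (fun i => ?_) i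
      have h5 := congrFun hx.2 i
      have h6 := congrFun hx'.2 i
      exact h5.trans h6.symm
  refine h1.trans (le_of_eq ?_)
  rw [Finset.card_univ, Fintype.card_fun, Fintype.card_fin, card_units', pow_succ]
  ring

end

end Pool.Agent.W519.GM
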