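import Mathlib
import Pool.Agent.W519.GM.Coprime

/-!
# The transcendence degree of the field generated by the gamma values with exact denominator `q`
-/

namespace Pool.Agent.W519.GM

open Real Finset

/-- the generators: `π` and the numbers `Γ(a/q)` with `1 ≤ a ≤ q - 1` and `gcd(a, q) = 1` -/
def gens (q : ℕ) : Set ℝ :=
  {x | x = π ∨ ∃ a : ℕ, 1 ≤ a ∧ a ≤ q - 1 ∧ Nat.Coprime a q ∧ x = Gamma ((a : ℝ) / q)}

/-- the small residues -/
def small (q : ℕ) : Finset ℕ := (range q).filter fun b => 1 < b ∧ 2 * b < q ∧ Nat.Coprime b q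

theorem two_mul_card_small {q : ℕ} (hq : 2 < q) : 2 * ((small q).card + 1) ≤ q.totient := by
  have h1 : (insert 1 (small q)).card = (small q).card + 1 := by
    rw [card_insert_of_notMem]
    intro h
    rw [small, mem_filter] at h
    omega
  have h2 : ∀ b ∈ insert 1 (small q), 0 < b ∧ 2 * b < q ∧ Nat.Coprime b q := by
    intro b hb
    rw [mem_insert, small, mem_filter] at hb
    rcases hb with rfl | hb
    · exact ⟨one_pos, by omega, Nat.coprime_one_left q⟩
    · exact ⟨by omega, hb.2.2.1, hb.2.2.2⟩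
  have h3 : Disjoint (insert 1 (small q)) ((insert 1 (small q)).image fun b => q - b) := by
    rw [disjoint_left]
    intro b hb hb'
    rw [mem_image] at hb'
    obtain ⟨c, hc, rfl⟩ := hb'
    have := h2 _ hb
    have := h2 _ hc
    omega
  have h4 : ((insert 1 (small q)).image fun b => q - b).card = (insert 1 (small q)).card := by
    refine card_image_of_injOn fun b hb c hc hbc => ?_
    have := h2 _ (mem_coe.1 hb)
    have := h2 _ (mem_coe.1 hc)
    have hbc' : q - b = q - c := hbc
    omega
  rw [two_mul, ← h1]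
  nth_rewrite 2 [← h4]
  rw [← card_union_of_disjoint h3, Nat.totient]
  refine card_le_card fun b hb => ?_
  rw [mem_filter, mem_range]
  rw [mem_union, mem_image] at hb
  rcases hb with hb | ⟨c, hc, rfl⟩
  · have := h2 _ hb
    exact ⟨by omega, this.2.2.symm⟩
  · have := h2 _ hc
    refine ⟨by omega, ?_⟩
    rw [Nat.coprime_comm, Nat.coprime_self_sub_left (by omega)]
    exact this.2.2

theorem criterion {l N v q : ℕ} (hl : l.Prime) (hlN : Nat.Coprime l N)
    (hN : ∀ k : ℕ, ¬ N ∣ l ^ k + 1) (hq : q = N * l ^ (v + 1)) :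
    Algebra.trdeg ℚ (IntermediateField.adjoin ℚ (gens q)) ≤ ((q.totient / 2 : ℕ) : Cardinal) := by
  classical
  have hN0 : 0 < N := by
    rcases Nat.eq_zero_or_pos N with rfl | h
    · rw [Nat.coprime_zero_right] at hlN
      exact absurd hlN hl.one_lt.ne'
    · exact h
  have hN3 : 3 ≤ N := by
    have h1 := hN 0
    rw [pow_zero] at h1
    by_contra hcon
    have : N = 1 ∨ N = 2 := by omega
    rcases this with rfl | rfl
    · exact h1 (by norm_num)
    · exact h1 (by norm_num)
  have hlv : 0 < l ^ v := pow_pos hl.pos v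
  have hq' : q = N * (l * l ^ v) := by rw [hq, pow_succ, mul_comm (l ^ v)]
  have hq2 : 2 < q := by
    have h1 : 1 ≤ l * l ^ v := Nat.succ_le_of_lt (Nat.mul_pos hl.pos hlv)
    have h2 : N * 1 ≤ N * (l * l ^ v) := Nat.mul_le_mul_left N h1
    omega
  have hqr : (0 : ℝ) < q := by exact_mod_cast (by omega : 0 < q)
  -- the set of the exceptional residues
  let h : ℕ → Prop := fun a => ∃ k : ℕ, (a : ZMod N) = (l : ZMod N) ^ k
  have hunit : IsUnit (l : ZMod N) := (ZMod.isUnit_iff_coprime l N).2 hlN
  have hper : ∀ j b, h (N * j + b) ↔ h b := by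
    intro j b
    simp only [h]
    push_cast
    rw [ZMod.natCast_self, zero_mul, zero_add]
  have hN1 : Fact (1 < N) := ⟨by omega⟩
  have h0 : ¬ h 0 := by
    rintro ⟨k, hk⟩
    rw [Nat.cast_zero] at hk
    have h1 := hunit.pow k
    rw [← hk] at h1
    exact not_isUnit_zero h1
  have hmul : ∀ a, h (l * a) ↔ h a := by
    intro a
    constructor
    · rintro ⟨k, hk⟩
      push_cast at hk
      have h1 : (l : ZMod N) ^ (N.totient) = 1 := by
        obtain ⟨u, hu⟩ := hunit
        rw [← hu, ← Units.val_pow_eq_pow_val, ZMod.pow_totient, Units.val_one]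
      have h2 : 0 < N.totient := Nat.totient_pos.2 hN0
      refine ⟨k + (N.totient - 1), ?_⟩
      apply hunit.mul_left_cancel
      rw [hk, ← pow_succ']
      have h3 : k + (N.totient - 1) + 1 = k + N.totient := by omega
      rw [h3, pow_add, h1, mul_one]
    · rintro ⟨k, hk⟩
      refine ⟨k + 1, ?_⟩
      push_cast
      rw [hk, pow_succ']
  have hneg : ∀ a, a ≤ q → h a → ¬ h (q - a) := by
    rintro a haq ⟨k, hk⟩ ⟨m, hm⟩
    rw [Nat.cast_sub haq, hk] at hm
    have hq0 : (q : ZMod N) = 0 := by
      rw [hq]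
      push_cast
      rw [ZMod.natCast_self, zero_mul]
    rw [hq0, zero_sub] at hm
    have h1 : (l : ZMod N) ^ m + (l : ZMod N) ^ k = 0 := by rw [← hm]; ring
    have key : ∀ x y : ℕ, x ≤ y → (l : ZMod N) ^ y + (l : ZMod N) ^ x = 0 → False := by
      intro x y hxy h2
      obtain ⟨z, rfl⟩ := Nat.exists_eq_add_of_le hxy
      have h3 : (l : ZMod N) ^ x * ((l : ZMod N) ^ z + 1) = (l : ZMod N) ^ x * 0 := by
        rw [mul_zero, ← h2]
        ring
      have h4 := (hunit.pow x).mul_left_cancel h3
      apply hN z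
      rw [← ZMod.natCast_eq_zero_iff]
      push_cast
      exact h4
    rcases le_total m k with h2 | h2
    · exact key m k h2 (by rw [add_comm]; exact h1)
    · exact key k m h2 h1
  have hcop : ∀ a, h a ∧ ¬ l ∣ a → Nat.Coprime a q := by
    rintro a ⟨⟨k, hk⟩, h2⟩
    rw [hq]
    refine Nat.Coprime.mul_right ?_ (Nat.Coprime.pow_right _ ?_)
    · rw [← ZMod.isUnit_iff_coprime, hk]
      exact hunit.pow k
    · exact ((Nat.Prime.coprime_iff_not_dvd hl).2 h2).symm
  -- the finite set
  let T : Finset ℝ := insert π ((small q).image fun b : ℕ => Gamma ((b : ℝ) / q))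
  have hTcard : T.card ≤ q.totient / 2 := by
    have h1 := two_mul_card_small hq2
    have h2 : T.card ≤ (small q).card + 1 :=
      (card_insert_le _ _).trans (Nat.add_le_add_right card_image_le 1)
    omega
  let L := algebraicClosure (IntermediateField.adjoin ℚ (T : Set ℝ)) ℝ
  have hTL : ∀ x ∈ T, x ∈ L := fun x hx =>
    mem_algebraicClosure_iff.2 (isAlgebraic_algebraMap
      (⟨x, IntermediateField.subset_adjoin ℚ _ hx⟩ : IntermediateField.adjoin ℚ (T : Set ℝ)))
  have hC : Good L.toSubfield := by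
    refine ⟨fun x hx => mem_algebraicClosure_iff.2 ?_, hTL π (mem_insert_self _ _),
      fun x n hn hx => mem_algebraicClosure_iff.2 ?_⟩
    · exact hx.tower_top _
    · exact IsAlgebraic.of_pow hn (mem_algebraicClosure_iff.1 hx)
  set C := L.toSubfield with hCdef
  have hsmall : ∀ b ∈ small q, Gamma ((b : ℝ) / q) ∈ C := fun b hb =>
    hTL _ (mem_insert_of_mem (mem_image_of_mem _ hb))
  -- all but two of the values
  have hmid : ∀ a, Nat.Coprime a q → 1 < a → a < q - 1 → Gamma ((a : ℝ) / q) ∈ C := by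
    intro a ha h1 h2
    by_cases h3 : 2 * a < q
    · exact hsmall a (mem_filter.2 ⟨mem_range.2 (by omega), h1, h3, ha⟩)
    · have h4 : 2 * a ≠ q := by
        intro h5
        have h6 : a ∣ q := ⟨2, by omega⟩
        have h7 := Nat.Coprime.eq_one_of_dvd ha h6
        omega
      have h5 : Nat.Coprime (q - a) q := by
        rw [Nat.coprime_self_sub_left (by omega)]
        exact ha
      have h6 := hsmall (q - a) (mem_filter.2 ⟨mem_range.2 (by omega), by omega, by omega, h5⟩)
      have h7 := gamma_refl hC (a := q - a) (q := q) (by omega) (by omega) h6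
      rwa [Nat.sub_sub_self (by omega)] at h7
  -- the product
  have hP := P_mem hC hN0 h hper h0 hl.pos hmul (n := l ^ v) hlv
  rw [← hq'] at hP
  have h1h : h 1 ∧ ¬ l ∣ 1 := by
    refine ⟨⟨0, by simp⟩, fun h1 => ?_⟩
    have := Nat.le_of_dvd one_pos h1
    have := hl.two_le
    omega
  have hone : Gamma (((1 : ℕ) : ℝ) / q) ∈ C := by
    rw [← mul_prod_erase (range q) _ (mem_range.2 (by omega : 1 < q)), if_pos h1h] at hP
    have h2 : (∏ a ∈ (range q).erase 1, if h a ∧ ¬ l ∣ a then Gamma ((a : ℝ) / q) else 1) ∈ C := by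
      refine Subfield.prod_mem C fun a ha => ?_
      rw [mem_erase, mem_range] at ha
      by_cases h3 : h a ∧ ¬ l ∣ a
      · rw [if_pos h3]
        have h4 : a ≠ 0 := fun h5 => h0 (h5 ▸ h3.1)
        have h5 : a ≠ q - 1 := by
          rintro rfl
          exact hneg 1 (by omega) h1h.1 h3.1
        exact hmid a (hcop a h3) (by omega) (by omega)
      · rw [if_neg h3]
        exact C.one_mem
    have h3 : (∏ a ∈ (range q).erase 1, if h a ∧ ¬ l ∣ a then Gamma ((a : ℝ) / q) else 1) ≠ 0 := by
      refine prod_ne_zero_iff.2 fun a _ => ?_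
      by_cases h3 : h a ∧ ¬ l ∣ a
      · rw [if_pos h3]
        have h4 : a ≠ 0 := fun h5 => h0 (h5 ▸ h3.1)
        have h5 : (0 : ℝ) < a := by exact_mod_cast Nat.pos_of_ne_zero h4
        exact (Gamma_pos_of_pos (by positivity)).ne'
      · rw [if_neg h3]
        exact one_ne_zero
    have h4 := C.div_mem hP h2
    rwa [mul_div_assoc, div_self h3, mul_one] at h4
  refine (trdeg_le_of_algebraic (gens q) T ?_).trans (by exact_mod_cast hTcard)
  rintro x (rfl | ⟨a, ha1, ha2, hac, rfl⟩)
  · exact mem_algebraicClosure_iff.1 hC.pi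
  · refine mem_algebraicClosure_iff.1 ?_
    change Gamma ((a : ℝ) / q) ∈ C
    by_cases h2 : a = 1
    · rw [h2]
      exact hone
    · by_cases h3 : a = q - 1
      · rw [h3]
        exact gamma_refl hC one_pos (by omega) hone
      · exact hmid a hac (by omega) (by omega)

end Pool.Agent.W519.GM
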